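import Pool.Agent.H8.PU.Targets
import Pool.Agent.H84.TW.PB

/-!
# Pull-back of spectra
-/

set_option autoImplicit false

namespace Pool.Agent.H51.PU

open Pool.Agent.H8.PL Pool.Agent.H8.PU Pool.Agent.H69.Sp Pool.Agent.H69.Mt Pool.Agent.H16.TO
open Pool.Agent.H84.TW

theorem fd_pb (r c : ℕ) (hc : 0 < c) :
    FD (fun _ _ v => 4 ≤ v 1 ∧ v 2 = c * ((v 1 ^ r - 1) ^ 2 + 1)) := by
  refine ((FD.ex 3 ((FD.num 4 3).and (FD.le 3 1))).and
    (FD.ex 3 (FD.ex 4 (FD.ex 5 (FD.ex 6 (FD.ex 7 ((fd_pow r 1 3).and ((FD.succ 4 3).and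
      ((FD.mul 4 4 5).and ((FD.num c 6).and ((FD.succ 5 7).and (FD.mul 6 7 2)))))))))))).congr
    fun N E v hv => ?_
  simp only [Function.update_self, Function.update_of_ne, ne_eq, not_false_eq_true,
    OfNat.one_ne_ofNat, Nat.reduceEqDiff]
  constructor
  · rintro ⟨⟨a, _, rfl, h1⟩, t, _, u, _, w, _, z, _, y, _, ⟨_, h2⟩, h3, h4, h5, h6, h7⟩
    refine ⟨h1, ?_⟩
    have hu : v 1 ^ r - 1 = u := by omega
    rw [hu, ← h7, h6, ← h4, h5]
    ring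
  · rintro ⟨h1, h2⟩
    have h3 : 1 ≤ v 1 ^ r := Nat.one_le_pow _ _ (by omega)
    have h4 := hv 2
    obtain ⟨u, hu⟩ : ∃ u, v 1 ^ r = u + 1 := ⟨v 1 ^ r - 1, by omega⟩
    rw [hu, Nat.add_sub_cancel] at h2
    have h5 : u ≤ u * u := by
      rcases Nat.eq_zero_or_pos u with h | h
      · simp [h]
      · exact Nat.le_mul_of_pos_left u h
    have h6 : v 2 = c * (u * u + 1) := by rw [h2]; ring
    have h7 := hv 1
    have h8 : u * u + 1 ≤ c * (u * u + 1) := Nat.le_mul_of_pos_left _ hc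
    have h9 : c ≤ c * (u * u + 1) := Nat.le_mul_of_pos_right _ (by omega)
    refine ⟨⟨4, by omega, rfl, h1⟩, u + 1, by omega, u, by omega, u * u, by omega, c, by omega,
      u * u + 1, by omega, ⟨by omega, hu.symm⟩, rfl, rfl, rfl, rfl, h6.symm⟩

theorem pf_PB : Y_PB := by
  intro X hX r c _ hc
  refine wrapT (P := fun N _ m => ∃ y, y < N ∧ ((4 ≤ m ∧ y = c * ((m ^ r - 1) ^ 2 + 1)) ∧ y ∈ X))
    ?_ ?_ (c + 2 * r) fun m hm => ?_
  · refine (ED.ex 2 ((fd_pb r c hc).ed.and (mem_ed hX 2))).congr fun N E v hv => ?_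
    simp only [Function.update_self, Function.update_of_ne, ne_eq, not_false_eq_true,
      OfNat.one_ne_ofNat]
  · rintro ⟨h, _⟩
    omega
  · have hlt : c * ((m ^ r - 1) ^ 2 + 1) < (m ^ 2 ^ (c + 2 * r)) ^ 8 := by
      have h0 : 1 ≤ m ^ r := Nat.one_le_pow _ _ (by omega)
      have h1 : (m ^ r - 1) ^ 2 + 1 ≤ (m ^ r) ^ 2 := by
        obtain ⟨u, hu⟩ : ∃ u, m ^ r = u + 1 := ⟨m ^ r - 1, by omega⟩
        rw [hu, Nat.add_sub_cancel]
        nlinarith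
      have hcm : c ≤ m ^ c := (Nat.lt_pow_self (by omega)).le
      have h2 : c * ((m ^ r - 1) ^ 2 + 1) ≤ m ^ (c + 2 * r) := by
        rw [pow_add, pow_mul' m 2 r]
        exact Nat.mul_le_mul hcm h1
      have h3 : m ^ (c + 2 * r) ≤ m ^ 2 ^ (c + 2 * r) :=
        Nat.pow_le_pow_right (by omega) (Nat.lt_two_pow_self (n := c + 2 * r)).le
      have h4 : 1 < m ^ 2 ^ (c + 2 * r) := Nat.one_lt_pow (by positivity) (by omega)
      calc c * ((m ^ r - 1) ^ 2 + 1) ≤ m ^ 2 ^ (c + 2 * r) := h2.trans h3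
        _ = (m ^ 2 ^ (c + 2 * r)) ^ 1 := (pow_one _).symm
        _ < (m ^ 2 ^ (c + 2 * r)) ^ 8 := Nat.pow_lt_pow_right h4 (by norm_num)
    constructor
    · rintro ⟨h1, h2⟩
      exact ⟨fun _ _ => False, _, hlt, ⟨h1, rfl⟩, h2⟩
    · rintro ⟨_, y, _, ⟨h1, rfl⟩, h2⟩
      exact ⟨h1, h2⟩

end Pool.Agent.H51.PU
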