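import Pool.Agent.H8.PU.Targets

/-!
# The colours can be coded by gadgets
-/

set_option autoImplicit false

namespace Pool.Agent.H51.PU

open Pool.Agent.H69.Sp Pool.Agent.H69.Mt Pool.Agent.H16.TO Pool.Agent.H8.PL Pool.Agent.H8.PU

theorem pf_UC (hTS : Y_TS) (hEX : Y_EX) (hEQ : Y_EQ) (hSZ : Y_SZ) (hPG : Y_PG) (hIS : Z_IS) :
    Y_UC := by
  classical
  intro φ
  set b : ℕ := max φ.bd 2 with hb
  have hb1 : φ.bd ≤ b := le_max_left _ _
  have hb2 : 2 ≤ b := le_max_right _ _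
  obtain ⟨φ', hφ'⟩ := hTS φ b hb1
  refine ⟨φ', 2 ^ b - 1, fun n => ?_⟩
  constructor
  · rintro ⟨hn, G, hG, hs⟩
    have : Nonempty (Fin n) := ⟨⟨0, hn⟩⟩
    obtain ⟨hIG, hsat⟩ := (hφ' (Fin n) G).1 hs
    have hsz := hSZ (Fin n) G _ hIG
    rw [Nat.card_eq_fintype_card (α := Fin n), Fintype.card_fin] at hsz
    set m : ℕ := Nat.card {x // 3 ≤ Pool.Agent.H8.PU.dg G x} with hm
    have hm0 : 0 < m := by
      rcases Nat.eq_zero_or_pos m with h | h
      · rw [h, Nat.mul_zero] at hsz; omega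
      · exact h
    let e : {x // 3 ≤ Pool.Agent.H8.PU.dg G x} ≃ Fin m := Finite.equivFin _
    let G0 : SimpleGraph (Fin m) := (G.induce {x | 3 ≤ Pool.Agent.H8.PU.dg G x}).comap e.symm
    refine ⟨m, ⟨hm0, fun i a => (nb G 2 (e.symm a).1).testBit i = true, G0, ?_, ?_⟩, hsz⟩
    · have h1 := (hPG (Fin n) G _ hIG).2 hG
      refine (hIS {x // 3 ≤ Pool.Agent.H8.PU.dg G x} (Fin m) e
        (G.induce {x | 3 ≤ Pool.Agent.H8.PU.dg G x}) G0 (fun x y => ?_)).1 h1
      change _ ↔ (G.induce {x | 3 ≤ Pool.Agent.H8.PU.dg G x}).Adj (e.symm (e x)) (e.symm (e y))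
      rw [Equiv.symm_apply_apply, Equiv.symm_apply_apply]
    · intro s
      have h1 := (hEQ {x // 3 ≤ Pool.Agent.H8.PU.dg G x} (Fin m) e
        (fun i x => (nb G 2 x.1).testBit i = true) (fun _ x y => G.Adj x.1 y.1)
        (fun i a => (nb G 2 (e.symm a).1).testBit i = true) (fun _ => G0.Adj) φ
        (fun i _ a => by rw [Equiv.symm_apply_apply]) (fun i _ x y => by
          change _ ↔ (G.induce {x | 3 ≤ Pool.Agent.H8.PU.dg G x}).Adj (e.symm (e x)) (e.symm (e y))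
          rw [Equiv.symm_apply_apply, Equiv.symm_apply_apply]
          rfl) (fun w => e.symm (s w))).1 (hsat _)
      simpa only [Equiv.apply_symm_apply] using h1
  · rintro ⟨m, ⟨hm0, P, G0, hpl, hsat⟩, rfl⟩
    let c : Fin m → ℕ := fun x => Nat.ofBits fun i : Fin b => decide (P i x)
    have hc : ∀ x, c x < 2 ^ b := fun x => Nat.ofBits_lt_two_pow _
    have hcb : ∀ x, ∀ i < b, ((c x).testBit i = true ↔ P i x) := by
      intro x i hi
      rw [show c x = Nat.ofBits fun i : Fin b => decide (P i x) from rfl,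
        Nat.testBit_ofBits_lt _ i hi, decide_eq_true_iff]
    obtain ⟨G', e, hIG, hadj, hnb⟩ := hEX m b hb2 G0 c hc
    have hN : 0 < (2 * (2 ^ b - 1) + 1) * m := Nat.mul_pos (by omega) hm0
    have : Nonempty (Fin ((2 * (2 ^ b - 1) + 1) * m)) := ⟨⟨0, hN⟩⟩
    refine ⟨hN, G', ?_, (hφ' _ G').2 ⟨hIG, fun s => ?_⟩⟩
    · refine (hPG _ G' _ hIG).1 ?_
      exact (hIS (Fin m) {x // 3 ≤ Pool.Agent.H8.PU.dg G' x} e G0
        (G'.induce {x | 3 ≤ Pool.Agent.H8.PU.dg G' x}) (fun x y => hadj x y)).1 hpl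
    · have h1 := (hEQ (Fin m) {x // 3 ≤ Pool.Agent.H8.PU.dg G' x} e P (fun _ => G0.Adj)
        (fun i x => (nb G' 2 x.1).testBit i = true) (fun _ x y => G'.Adj x.1 y.1) φ
        (fun i hi a => by rw [hnb]; exact (hcb a i (hi.trans_le hb1)).symm)
        (fun i _ x y => hadj x y) (fun w => e.symm (s w))).1 (hsat _)
      simpa only [Equiv.apply_symm_apply] using h1

end Pool.Agent.H51.PU
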